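import Mathlib

/-!
# MP_611bc7_al : automorphically equivalent, not geometrically equivalent commutative algebras

`k = ℚ(√2)`; `H₁ = ℝ` and `H₂ = ℝ` are the real numbers, regarded as `k`-algebras through the two
embeddings of `k` into `ℝ`.
-/

namespace Pool.Agent.Results.MP_611bc7_al.AutNotGeom

open MvPolynomial CategoryTheory

universe u v w

section defs

variable (k : Type u) [Field k]

/-- The polynomials in the elements of the finite set `X ⊂ ℕ` with zero constant term. -/
def FS (X : Finset ℕ) : NonUnitalSubalgebra k (MvPolynomial X k) where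
  carrier := {p | constantCoeff p = 0}
  add_mem' := by
    intro a b ha hb
    simp only [Set.mem_ofPred_eq] at ha hb ⊢
    rw [map_add, ha, hb, add_zero]
  zero_mem' := by simp
  mul_mem' := by
    intro a b ha hb
    simp only [Set.mem_ofPred_eq] at ha hb ⊢
    rw [map_mul, ha, zero_mul]
  smul_mem' := by
    intro c a ha
    simp only [Set.mem_ofPred_eq] at ha ⊢
    rw [MvPolynomial.smul_eq_C_mul, map_mul, ha, mul_zero]

/-- The free commutative associative `k`-algebra (without unit) on the finite set `X ⊂ ℕ`: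
the polynomials in the elements of `X` with zero constant term. -/
def F (X : Finset ℕ) : Type u := FS k X

noncomputable instance (X : Finset ℕ) : NonUnitalCommRing (F k X) :=
  (inferInstance : NonUnitalCommRing (FS k X))

noncomputable instance (X : Finset ℕ) : Module k (F k X) :=
  (inferInstance : Module k (FS k X))

/-- The category `Θ⁰`: the objects are the free algebras `F(X)`, `X ⊂ ℕ` finite, and the
morphisms are all homomorphisms. -/
structure Theta0 (k : Type u) where
  X : Finset ℕ

noncomputable instance : Category (Theta0 k) where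
  Hom A B := F k A.X →ₙₐ[k] F k B.X
  id A := NonUnitalAlgHom.id k (F k A.X)
  comp f g := NonUnitalAlgHom.comp g f

variable {k}

/-- The homomorphism `F(X) → F(Y)` underlying a morphism of `Θ⁰`. -/
def hom {A B : Theta0 k} (μ : A ⟶ B) : F k A.X →ₙₐ[k] F k B.X := μ

/-- `T''_H` for `T ⊆ F(X) × F(X)`: the intersection of the kernels of all homomorphisms
`ν : F(X) → H` whose kernel contains `T`. -/
def cl (H : Type v) [NonUnitalCommRing H] [Module k H] (X : Finset ℕ)
    (T : Set (F k X × F k X)) : Set (F k X × F k X) :=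
  {q | ∀ ν : F k X →ₙₐ[k] H, (∀ t ∈ T, ν t.1 = ν t.2) → ν q.1 = ν q.2}

variable (k) in
/-- The set of `H`-closed subsets of `F(X) × F(X)`. -/
def Cl (H : Type v) [NonUnitalCommRing H] [Module k H] (X : Finset ℕ) :
    Set (Set (F k X × F k X)) :=
  {T | T = cl H X T}

variable (k) in
/-- Geometric equivalence. -/
def GeomEquiv (H₁ H₂ : Type v) [NonUnitalCommRing H₁] [Module k H₁] [NonUnitalCommRing H₂]
    [Module k H₂] : Prop :=
  ∀ X : Finset ℕ, Cl k H₁ X = Cl k H₂ X

/-- `τ μ₁ = τ μ₂`, where `τ : F(Y) → F(Y)/T` is the natural epimorphism: for all `a` in the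
source, the pair `(μ₁ a, μ₂ a)` lies in the congruence `T`. -/
def SameImage {A B : Theta0 k} (μ₁ μ₂ : A ⟶ B) (T : Set (F k B.X × F k B.X)) : Prop :=
  ∀ a : F k A.X, (hom μ₁ a, hom μ₂ a) ∈ T

/-- `Φ` is an automorphism of the category `Θ⁰`, with inverse `Ψ`. -/
def IsAut (Φ Ψ : Theta0 k ⥤ Theta0 k) : Prop :=
  Φ ⋙ Ψ = 𝟭 (Theta0 k) ∧ Ψ ⋙ Φ = 𝟭 (Theta0 k)

/-- The compatibility of an automorphism `Φ` of `Θ⁰` with the bijections `α` between the sets of
closed congruences: `τ μ₁ = τ μ₂` if and only if `τ̃ Φ(μ₁) = τ̃ Φ(μ₂)`. -/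
def Compatible (H₁ H₂ : Type v) [NonUnitalCommRing H₁] [Module k H₁] [NonUnitalCommRing H₂]
    [Module k H₂] (Φ : Theta0 k ⥤ Theta0 k)
    (α : ∀ A : Theta0 k, Cl k H₁ A.X ≃ Cl k H₂ (Φ.obj A).X) : Prop :=
  ∀ (A B : Theta0 k) (μ₁ μ₂ : A ⟶ B) (T : Cl k H₁ B.X),
    SameImage μ₁ μ₂ T.1 ↔ SameImage (Φ.map μ₁) (Φ.map μ₂) (α B T).1

variable (k) in
/-- Automorphic equivalence: an automorphism `Φ` of the category `Θ⁰` and compatible bijections
`α` between the sets of closed congruences. -/
def AutEquiv (H₁ H₂ : Type v) [NonUnitalCommRing H₁] [Module k H₁] [NonUnitalCommRing H₂]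
    [Module k H₂] : Prop :=
  ∃ Φ Ψ : Theta0 k ⥤ Theta0 k, IsAut Φ Ψ ∧
    ∃ α : ∀ A : Theta0 k, Cl k H₁ A.X ≃ Cl k H₂ (Φ.obj A).X, Compatible H₁ H₂ Φ α

end defs

section twist

variable {k : Type u} [Field k] (σ : k ≃+* k)

/-- transport of a homomorphism along `σ`-semilinear ring isomorphisms -/
def conj {A A' B B' : Type*} [NonUnitalCommRing A] [Module k A] [NonUnitalCommRing A']
    [Module k A'] [NonUnitalCommRing B] [Module k B] [NonUnitalCommRing B'] [Module k B']
    (θA : A ≃+* A') (hA : ∀ (r : k) a, θA (r • a) = σ r • θA a)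
    (θB : B ≃+* B') (hB : ∀ (r : k) b, θB (r • b) = σ r • θB b) (ν : A →ₙₐ[k] B) :
    A' →ₙₐ[k] B' where
  toFun a := θB (ν (θA.symm a))
  map_smul' := by
    intro r a
    have : θA.symm (r • a) = σ.symm r • θA.symm a := by
      apply θA.injective
      rw [hA]
      simp
    rw [this, map_smul, hB]
    simp
  map_zero' := by simp
  map_add' := by intro a b; simp
  map_mul' := by intro a b; simp

/-- the action of `σ` on the coefficients of `F(X)` -/
noncomputable def coef (X : Finset ℕ) : F k X ≃+* F k X where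
  toFun a := ⟨MvPolynomial.map (σ : k →+* k) a.1, by
    have h : constantCoeff a.1 = 0 := a.2
    change constantCoeff (MvPolynomial.map (σ : k →+* k) a.1) = 0
    rw [constantCoeff_map, h, map_zero]⟩
  invFun a := ⟨MvPolynomial.map (σ.symm : k →+* k) a.1, by
    have h : constantCoeff a.1 = 0 := a.2
    change constantCoeff (MvPolynomial.map (σ.symm : k →+* k) a.1) = 0
    rw [constantCoeff_map, h, map_zero]⟩
  left_inv := by
    intro a
    apply Subtype.ext
    simp only
    rw [MvPolynomial.map_map]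
    simp [MvPolynomial.map_id]
  right_inv := by
    intro a
    apply Subtype.ext
    simp only
    rw [MvPolynomial.map_map]
    simp [MvPolynomial.map_id]
  map_mul' := by
    intro a b
    apply Subtype.ext
    exact map_mul (MvPolynomial.map (σ : k →+* k)) a.1 b.1
  map_add' := by
    intro a b
    apply Subtype.ext
    exact map_add (MvPolynomial.map (σ : k →+* k)) a.1 b.1

lemma coef_smul (X : Finset ℕ) (r : k) (a : F k X) :
    coef σ X (r • a) = σ r • coef σ X a := by
  apply Subtype.ext
  change MvPolynomial.map (σ : k →+* k) (r • a.1) = σ r • MvPolynomial.map (σ : k →+* k) a.1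
  rw [MvPolynomial.smul_eq_C_mul, MvPolynomial.smul_eq_C_mul, map_mul, map_C]
  rfl

lemma coef_symm_apply (X : Finset ℕ) (a : F k X) : (coef σ X).symm a = coef σ.symm X a := rfl

/-- the functor `μ ↦ σ μ σ⁻¹` -/
noncomputable def tw : Theta0 k ⥤ Theta0 k where
  obj A := A
  map {A B} μ := conj σ (coef σ A.X) (coef_smul σ A.X) (coef σ B.X) (coef_smul σ B.X) μ
  map_id := by
    intro A
    apply NonUnitalAlgHom.ext
    intro a
    exact (coef σ A.X).apply_symm_apply a
  map_comp := by
    intro A B C f g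
    apply NonUnitalAlgHom.ext
    intro a
    change (coef σ C.X) (hom g (hom f ((coef σ A.X).symm a))) =
      (coef σ C.X) (hom g ((coef σ B.X).symm ((coef σ B.X) (hom f ((coef σ A.X).symm a)))))
    rw [RingEquiv.symm_apply_apply]

lemma tw_map_map {A B : Theta0 k} (f : A ⟶ B) :
    (tw σ.symm).map ((tw σ).map f) = f := by
  apply NonUnitalAlgHom.ext
  intro (a : F k A.X)
  change (coef σ.symm B.X) ((coef σ B.X) (hom f ((coef σ A.X).symm ((coef σ.symm A.X).symm a))))
    = hom f a
  rw [← coef_symm_apply, RingEquiv.symm_apply_apply]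
  have : (coef σ.symm A.X).symm a = coef σ A.X a := by
    rw [coef_symm_apply]; rfl
  rw [this, RingEquiv.symm_apply_apply]

lemma tw_comp_symm : tw σ ⋙ tw σ.symm = 𝟭 (Theta0 k) :=
  CategoryTheory.Functor.hext (fun A => rfl) fun _ _ f => heq_of_eq (tw_map_map σ f)

/-- Two algebras related by a `σ`-semilinear ring isomorphism are automorphically equivalent. -/
theorem autEquiv_of_semilinear (H₁ H₂ : Type v) [NonUnitalCommRing H₁] [Module k H₁]
    [NonUnitalCommRing H₂] [Module k H₂] (θ : H₁ ≃+* H₂)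
    (hθ : ∀ (r : k) h, θ (r • h) = σ r • θ h) : AutEquiv k H₁ H₂ := by
  -- the key point
  have key : ∀ (X : Finset ℕ) (T : Set (F k X × F k X)) (q : F k X × F k X),
      q ∈ cl H₁ X T ↔
        (coef σ X q.1, coef σ X q.2) ∈
          cl H₂ X ((fun t : F k X × F k X => (coef σ X t.1, coef σ X t.2)) '' T) := by
    intro X T q
    constructor
    · intro h ν hν
      have hν' := h (conj σ.symm (coef σ X).symm (by
          intro r a
          exact coef_smul σ.symm X r a) θ.symm (by
          intro r a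
          apply θ.injective
          rw [hθ]
          simp) ν) ?_
      · exact θ.symm.injective hν'
      · intro t ht
        change θ.symm (ν (coef σ X t.1)) = θ.symm (ν (coef σ X t.2))
        rw [hν _ ⟨t, ht, rfl⟩]
    · intro h ν hν
      have hν' := h (conj σ (coef σ X) (coef_smul σ X) θ hθ ν) ?_
      · have h2 := θ.injective hν'
        rwa [RingEquiv.symm_apply_apply, RingEquiv.symm_apply_apply] at h2
      · rintro _ ⟨t, ht, rfl⟩
        change θ (ν ((coef σ X).symm (coef σ X t.1))) = θ (ν ((coef σ X).symm (coef σ X t.2)))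
        rw [RingEquiv.symm_apply_apply, RingEquiv.symm_apply_apply, hν _ ht]
  let e : ∀ X : Finset ℕ, (F k X × F k X) ≃ (F k X × F k X) := fun X =>
    Equiv.prodCongr (coef σ X).toEquiv (coef σ X).toEquiv
  have key' : ∀ (X : Finset ℕ) (T : Set (F k X × F k X)),
      cl H₂ X (e X '' T) = e X '' (cl H₁ X T) := by
    intro X T
    ext q
    obtain ⟨q, rfl⟩ := (e X).surjective q
    rw [(e X).injective.mem_set_image]
    exact (key X T q).symm
  let α : ∀ X : Finset ℕ, Cl k H₁ X ≃ Cl k H₂ X := fun X =>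
    { toFun := fun T => ⟨e X '' T.1, by
        have h : T.1 = cl H₁ X T.1 := T.2
        change e X '' T.1 = cl H₂ X (e X '' T.1)
        rw [key', ← h]⟩
      invFun := fun T => ⟨(e X).symm '' T.1, by
        have h : T.1 = cl H₂ X T.1 := T.2
        change (e X).symm '' T.1 = cl H₁ X ((e X).symm '' T.1)
        apply (e X).injective.image_injective
        rw [← key', Equiv.image_symm_image, ← h]⟩
      left_inv := fun T => Subtype.ext ((e X).symm_image_image T.1)
      right_inv := fun T => Subtype.ext ((e X).image_symm_image T.1) }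
  refine ⟨tw σ, tw σ.symm, ⟨tw_comp_symm σ, tw_comp_symm σ.symm⟩, fun A => α A.X, ?_⟩
  intro A B μ₁ μ₂ T
  constructor
  · intro h a
    exact ⟨_, h ((coef σ A.X).symm a), rfl⟩
  · intro h a
    obtain ⟨t, ht, hte⟩ := h (coef σ A.X a)
    have h1 : t = (hom μ₁ a, hom μ₂ a) := by
      apply (e B.X).injective
      rw [hte]
      change ((coef σ B.X) (hom μ₁ ((coef σ A.X).symm (coef σ A.X a))),
        (coef σ B.X) (hom μ₂ ((coef σ A.X).symm (coef σ A.X a)))) = _
      rw [RingEquiv.symm_apply_apply]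
      rfl
    rwa [← h1]

end twist

section example_

/-- The real numbers as an algebra over `k`, through an embedding `i : k → ℝ`. -/
def RealVia {k : Type u} [Field k] (_ : k →+* ℝ) : Type := ℝ

noncomputable instance {k : Type u} [Field k] (i : k →+* ℝ) : Field (RealVia i) :=
  inferInstanceAs (Field ℝ)

noncomputable instance {k : Type u} [Field k] (i : k →+* ℝ) : Algebra k (RealVia i) :=
  RingHom.toAlgebra i

/-- a real number as an element of `RealVia i` -/
def toVia {k : Type u} [Field k] (i : k →+* ℝ) (r : ℝ) : RealVia i := r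

lemma smul_def' {k : Type u} [Field k] (i : k →+* ℝ) (r : k) (h : RealVia i) :
    r • h = ((i r * (show ℝ from h) : ℝ) : RealVia i) := rfl

instance : Fact (∀ r : ℚ, r ^ 2 ≠ 2 + 0 * r) := by
  refine ⟨fun r h => ?_⟩
  rw [zero_mul, add_zero] at h
  have h2 : Irrational (Real.sqrt 2) := irrational_sqrt_two
  apply h2
  have h3 : (|r| : ℝ) = Real.sqrt 2 := by
    rw [eq_comm, Real.sqrt_eq_iff_mul_self_eq (by norm_num) (abs_nonneg _)]
    rw [abs_mul_abs_self]
    have : (r : ℝ) ^ 2 = 2 := by exact_mod_cast h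
    linarith [this, sq (r : ℝ)]
  exact ⟨|r|, by rw [← h3]; push_cast; rfl⟩

/-- `ℚ(√2)` -/
abbrev K : Type := QuadraticAlgebra ℚ 2 0

/-- the embedding of `ℚ(√2)` with `√2 ↦ √2` -/
noncomputable def i₁ : K →+* ℝ :=
  (QuadraticAlgebra.lift (A := ℝ) (R := ℚ) (a := 2) (b := 0) ⟨Real.sqrt 2, by
    rw [Real.mul_self_sqrt (by norm_num)]
    simp⟩ : K →ₐ[ℚ] ℝ).toRingHom

/-- the embedding of `ℚ(√2)` with `√2 ↦ -√2` -/
noncomputable def i₂ : K →+* ℝ := i₁.comp (starRingAut (R := K) : K →+* K)

lemma i₁_omega : i₁ ⟨0, 1⟩ = Real.sqrt 2 := by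
  simp [i₁, QuadraticAlgebra.lift]

lemma i₂_omega : i₂ ⟨0, 1⟩ = -Real.sqrt 2 := by
  have h : (starRingAut (R := K) : K →+* K) ⟨0, 1⟩ = -⟨0, 1⟩ := by
    ext <;> simp
  change i₁ ((starRingAut (R := K) : K →+* K) ⟨0, 1⟩) = _
  rw [h, map_neg, i₁_omega]

lemma autEquiv_example : AutEquiv K (RealVia i₁) (RealVia i₂) := by
  refine autEquiv_of_semilinear (starRingAut (R := K)) (RealVia i₁) (RealVia i₂)
    (RingEquiv.refl ℝ) ?_
  intro r h
  change (i₁ r * (show ℝ from h) : ℝ) = i₂ (starRingAut r) * (show ℝ from h)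
  have : i₂ (starRingAut r) = i₁ r := by
    change i₁ (starRingAut (starRingAut r)) = i₁ r
    congr 1
    exact star_star r
  rw [this]

/-- the variable `x` of `F({0})` -/
noncomputable def x : F K {0} := ⟨X ⟨0, by simp⟩, by
  change constantCoeff _ = 0
  simp⟩

/-- the homomorphism `F({0}) → ℝ`, `x ↦ r` -/
noncomputable def evalAt (i : K →+* ℝ) (r : ℝ) : F K {0} →ₙₐ[K] RealVia i :=
  ((MvPolynomial.aeval (R := K) (fun _ => toVia i r) :
    MvPolynomial ({0} : Finset ℕ) K →ₐ[K] RealVia i) : _ →ₙₐ[K] RealVia i).comp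
    (NonUnitalSubalgebraClass.subtype (FS K {0}))

lemma evalAt_x (i : K →+* ℝ) (r : ℝ) : evalAt i r x = toVia i r := by
  change MvPolynomial.aeval (R := K) (fun _ => toVia i r) (X _) = _
  rw [aeval_X]

lemma not_geomEquiv_example : ¬ GeomEquiv K (RealVia i₁) (RealVia i₂) := by
  intro h
  -- the congruence generated by `x³ = √2 x`
  let T₀ : Set (F K {0} × F K {0}) := {(x * x * x, (⟨0, 1⟩ : K) • x)}
  let T := cl (RealVia i₁) {0} T₀
  have hsub : T₀ ⊆ T := fun t ht ν hν => hν t ht
  have hT : T ∈ Cl K (RealVia i₁) {0} := by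
    change T = cl (RealVia i₁) {0} T
    apply Set.Subset.antisymm
    · exact fun t ht ν hν => hν t ht
    · intro t ht ν hν
      exact ht ν fun s hs => hs ν hν
  rw [h] at hT
  -- `(x, 0)` lies in the `H₂`-closure of `T`
  have h1 : (x, (0 : F K {0})) ∈ cl (RealVia i₂) {0} T := by
    intro ν hν
    have h2 := hν _ (hsub rfl)
    rw [map_mul, map_mul, map_smul, smul_def', i₂_omega] at h2
    rw [map_zero]
    have h3 : ∀ r : ℝ, r * r * r = -Real.sqrt 2 * r → r = 0 := by
      intro r hr
      by_contra hne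
      have h4 : r * r = -Real.sqrt 2 := mul_right_cancel₀ hne hr
      have h5 : 0 < Real.sqrt 2 := Real.sqrt_pos.2 (by norm_num)
      nlinarith [mul_self_nonneg r]
    exact h3 _ h2
  have h2 : (x, (0 : F K {0})) ∈ T := by
    have : T = cl (RealVia i₂) {0} T := hT
    rw [this]
    exact h1
  -- but not in `T`
  have h3 := h2 (evalAt i₁ (Real.sqrt (Real.sqrt 2))) ?_
  · rw [evalAt_x, map_zero] at h3
    have h5 : 0 < Real.sqrt (Real.sqrt 2) := Real.sqrt_pos.2 (Real.sqrt_pos.2 (by norm_num))
    exact h5.ne' h3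
  · intro t ht
    rw [Set.mem_singleton_iff.1 ht]
    rw [map_mul, map_mul, map_smul, smul_def', i₁_omega, evalAt_x]
    change Real.sqrt (Real.sqrt 2) * Real.sqrt (Real.sqrt 2) * Real.sqrt (Real.sqrt 2) =
      Real.sqrt 2 * Real.sqrt (Real.sqrt 2)
    rw [Real.mul_self_sqrt (Real.sqrt_nonneg _)]

end example_

/-- **Theorem.**  There are a field `k` of characteristic zero (namely `ℚ(√2)`) and commutative
associative `k`-algebras `H₁`, `H₂` (even fields) that are automorphically equivalent but not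
geometrically equivalent. -/
theorem result : ∃ (k : Type) (_ : Field k) (_ : CharZero k) (H₁ H₂ : Type)
    (_ : Field H₁) (_ : Algebra k H₁) (_ : Field H₂) (_ : Algebra k H₂),
    AutEquiv k H₁ H₂ ∧ ¬ GeomEquiv k H₁ H₂ :=
  ⟨K, inferInstance, inferInstance, RealVia i₁, RealVia i₂, inferInstance, inferInstance,
    inferInstance, inferInstance, autEquiv_example, not_geomEquiv_example⟩

end Pool.Agent.Results.MP_611bc7_al.AutNotGeom
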